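import Mathlib

namespace Pool.Agent.Results.MP_d5a48f_an.Stretch
open Complex Set Filter Topology
open scoped Real

noncomputable def u (z : ℂ) : ℂ := Real.sin z.im + Real.sin z.re * I

noncomputable def p (z : ℂ) : ℝ := Real.cos z.re * Real.cos z.im

lemma lip : LipschitzWith 2 u := .of_dist_le_mul fun z w => by
  rw [dist_eq_norm, dist_eq_norm]
  refine (norm_le_abs_re_add_abs_im _).trans ?_
  have a := Real.abs_sin_sub_sin_le z.im w.im
  have b := Real.abs_sin_sub_sin_le z.re w.re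
  have c := abs_re_le_norm (z - w)
  have d := abs_im_le_norm (z - w)
  simp [u, -ofReal_sin] at *
  linarith

lemma flow (z : ℂ) : ∃ f : ℝ → ℂ, f 0 = z ∧ ∀ t, HasDerivAt f (u (f t)) t := by
  have : ∀ n : ℕ, ∃ f : ℝ → ℂ, f 0 = z ∧ ∀ t ∈ Ioo (-n : ℝ) n, HasDerivAt f (u (f t)) t := fun n => by
    obtain ⟨f, h0, h⟩ := IsPicardLindelof.exists_eq_forall_mem_Icc_hasDerivWithinAt₀
      (f := fun _ => u) (t₀ := (⟨0, by simp⟩ : Icc (-n : ℝ) n)) (x₀ := z) (a := 2 * n) (L := 2)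
      (K := 2) ⟨fun _ _ => lip.lipschitzOnWith, fun _ _ => continuousOn_const, fun _ _ x _ => by
        refine (norm_le_abs_re_add_abs_im _).trans ?_
        simp [u, -ofReal_sin]
        linarith [Real.abs_sin_le_one x.re, Real.abs_sin_le_one x.im], by simp⟩
    exact ⟨f, h0, fun t ht => (h t (Ioo_subset_Icc_self ht)).hasDerivAt (Icc_mem_nhds ht.1 ht.2)⟩
  choose f h0 h using this
  have e : ∀ m n : ℕ, m ≤ n → EqOn (f m) (f n) (Ioo (-m : ℝ) m) := fun m n hmn t ht =>
    have : (m : ℝ) ≤ n := by exact_mod_cast hmn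
    ODE_solution_unique_of_mem_Ioo (v := fun _ => u) (s := fun _ => univ) (t₀ := 0)
      (fun _ _ => lip.lipschitzOnWith) ⟨by linarith [ht.1, ht.2], by linarith [ht.1, ht.2]⟩
      (fun t ht => ⟨h m t ht, trivial⟩) (fun t ht => ⟨h n t
        ⟨by linarith [ht.1], by linarith [ht.2]⟩, trivial⟩) (by rw [h0, h0]) ht
  have m : ∀ t : ℝ, t ∈ Ioo (-(⌊|t|⌋₊ + 1 : ℕ) : ℝ) (⌊|t|⌋₊ + 1 : ℕ) := fun t =>
    abs_lt.1 (by exact_mod_cast Nat.lt_floor_add_one |t|)
  refine ⟨fun t => f (⌊|t|⌋₊ + 1) t, h0 _, fun t => (h _ t (m t)).congr_of_eventuallyEq ?_⟩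
  filter_upwards [isOpen_Ioo.mem_nhds (m t)] with s hs
  rcases le_total (⌊|s|⌋₊ + 1) (⌊|t|⌋₊ + 1) with k | k
  exacts [e _ _ k (m s), (e _ _ k hs).symm]

lemma cd (k : ℕ) : ∀ c : ℝ, ContDiff ℝ k fun s : ℝ => s ^ (2 * k + 1) * Real.cos (s⁻¹ + c) := by
  have t : ∀ (c : ℝ) (n : ℕ), Tendsto (fun s : ℝ => s ^ (n + 1) * Real.cos (s⁻¹ + c)) (𝓝 0) (𝓝 0) :=
    fun c n => squeeze_zero_norm (a := fun s => ‖s‖ ^ (n + 1)) (fun s => by
      rw [norm_mul, norm_pow]
      exact mul_le_of_le_one_right (by positivity) (Real.abs_cos_le_one _))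
      (Continuous.tendsto' (by fun_prop) _ _ (by simp))
  induction k with
  | zero =>
    intro c
    refine contDiff_zero.2 (continuous_iff_continuousAt.2 fun s => ?_)
    rcases eq_or_ne s 0 with rfl | h
    · simpa [ContinuousAt] using t c 0
    · fun_prop (disch := assumption)
  | succ k ih =>
    intro c
    have d : ∀ s : ℝ, HasDerivAt (fun s : ℝ => s ^ (2 * (k + 1) + 1) * Real.cos (s⁻¹ + c))
        ((2 * k + 3) * s * (s ^ (2 * k + 1) * Real.cos (s⁻¹ + c)) +
          s ^ (2 * k + 1) * Real.cos (s⁻¹ + (c - π / 2))) s := fun s => by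
      rcases eq_or_ne s 0 with rfl | h
      · rw [hasDerivAt_iff_tendsto_slope_zero]
        simp only [zero_pow (Nat.succ_ne_zero _), zero_mul, mul_zero, add_zero, zero_add, sub_zero]
        refine ((t c (2 * k + 1)).mono_left nhdsWithin_le_nhds).congr' ?_
        filter_upwards [self_mem_nhdsWithin] with s (hs : s ≠ 0)
        rw [smul_eq_mul]; field_simp; ring
      · convert! (hasDerivAt_pow (2 * (k + 1) + 1) s).fun_mul
          ((hasDerivAt_inv h).add_const c).cos using 1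
        rw [← add_sub_assoc, Real.cos_sub_pi_div_two]
        simp; field_simp; ring
    rw [Nat.cast_succ, contDiff_succ_iff_deriv]
    refine ⟨fun s => (d s).differentiableAt, by simp, ?_⟩
    rw [funext fun s => (d s).deriv]
    exact ((contDiff_const.mul contDiff_id).mul (ih c)).add (ih _)

section
variable {f : ℝ → ℂ} (hf : ∀ t, HasDerivAt f (u (f t)) t)
include hf

lemma da (e : ℝ) (t : ℝ) : HasDerivAt (fun t => ((f t).re + e * (f t).im) / 2)
    ((Real.sin (f t).im + e * Real.sin (f t).re) / 2) t := by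
  convert! ((reCLM.hasFDerivAt.comp_hasDerivAt t (hf t)).fun_add
    ((imCLM.hasFDerivAt.comp_hasDerivAt t (hf t)).const_mul e)).div_const 2 using 2
  simp [u, -ofReal_sin]

lemma grow (a b : ℝ → ℝ) (ha : a = fun t => ((f t).re + 1 * (f t).im) / 2)
    (hb : b = fun t => ((f t).re + -1 * (f t).im) / 2) (T η : ℝ) (hT : 0 ≤ T) (h1 : η ≤ 1)
    (a0 : |a 0| * Real.exp T ≤ η) (b0 : |b 0| ≤ η) :
    |a T| ≤ |a 0| * Real.exp T ∧ |a 0| * Real.exp ((1 - η ^ 2) * T) / 2 ≤ |a T| := by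
  have x : ∀ t, (f t).re = a t + b t := fun t => by simp only [ha, hb]; ring
  have y : ∀ t, (f t).im = a t - b t := fun t => by simp only [ha, hb]; ring
  have d1 : ∀ t, HasDerivAt a (Real.sin (a t) * Real.cos (b t)) t := fun t => by
    convert! ha ▸ da hf 1 t using 1
    rw [x, y, Real.sin_add, Real.sin_sub]; ring
  have d2 : ∀ t, HasDerivAt b (-(Real.cos (a t) * Real.sin (b t))) t := fun t => by
    convert! hb ▸ da hf (-1) t using 1
    rw [x, y, Real.sin_add, Real.sin_sub]; ring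
  have up : ∀ t ∈ Icc 0 T, |a t| ≤ |a 0| * Real.exp t := fun t ht => by
    simpa [gronwallBound_ε0] using norm_le_gronwallBound_of_norm_deriv_right_le (K := 1) (ε := 0)
      (HasDerivAt.continuousOn fun t _ => d1 t) (fun t _ => (d1 t).hasDerivWithinAt) le_rfl
      (fun t _ => by
        rw [norm_mul, one_mul, add_zero]
        exact (mul_le_of_le_one_right (norm_nonneg _) (Real.abs_cos_le_one _)).trans
          Real.abs_sin_le_abs) t ht
  have η0 := (abs_nonneg _).trans b0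
  have sm : ∀ t ∈ Icc 0 T, |a t| ≤ η := fun t ht => (up t ht).trans <|
    (mul_le_mul_of_nonneg_left (Real.exp_le_exp.2 ht.2) (abs_nonneg _)).trans a0
  have cs : ∀ r : ℝ, |r| ≤ η → 1 - η ^ 2 / 2 ≤ Real.cos r := fun r h => by
    linarith [Real.one_sub_sq_div_two_le_cos (x := r), sq_le_sq' (abs_le.1 h).1 (abs_le.1 h).2]
  have mono : ∀ g g' : ℝ → ℝ, (∀ t, HasDerivAt g (g' t) t) → (∀ t ∈ Icc 0 T, 0 ≤ g' t) →
      ∀ t ∈ Icc 0 T, g 0 ≤ g t := fun g g' h h' t ht =>
    monotoneOn_of_deriv_nonneg (convex_Icc 0 T) (HasDerivAt.continuousOn fun t _ => h t)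
      (fun t _ => (h t).differentiableAt.differentiableWithinAt)
      (fun t ht => (h t).deriv ▸ h' t (interior_subset ht)) ⟨le_rfl, hT⟩ ht ht.1
  have e1 : η ^ 2 ≤ 1 := by nlinarith
  have cb := mono _ _ (fun t => (d2 t).cos) fun t ht => by
    have := cs _ (sm t ht)
    nlinarith [mul_nonneg (sq_nonneg (Real.sin (b t))) (show 0 ≤ Real.cos (a t) by linarith)]
  have w := mono _ _ (fun t => ((d1 t).cos.const_sub 1).fun_mul
    ((hasDerivAt_id' t).const_mul (-2 * (1 - η ^ 2))).exp) (fun t ht => by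
      have c1 := cs _ (sm t ht)
      have c2 := (cs _ b0).trans (cb t ht)
      have c3 := Real.cos_le_one (a t)
      have c4 : 2 * (1 - η ^ 2) ≤ (1 + Real.cos (a t)) * Real.cos (b t) := by
        nlinarith [mul_le_mul (show 2 - η ^ 2 / 2 ≤ 1 + Real.cos (a t) by linarith) c2
          (by linarith) (by linarith)]
      have := mul_nonneg (mul_nonneg (sub_nonneg.2 c3) (sub_nonneg.2 c4))
        (Real.exp_pos (-2 * (1 - η ^ 2) * t)).le
      refine this.trans_eq ?_
      linear_combination - Real.cos (b t) * Real.exp (-2 * (1 - η ^ 2) * t) *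
        Real.sin_sq_add_cos_sq (a t)) T ⟨hT, le_rfl⟩
  refine ⟨up T ⟨hT, le_rfl⟩, (abs_le_of_sq_le_sq' ?_ (abs_nonneg _)).2⟩
  have p3 := Real.pi_gt_three
  have c1 := Real.cos_le_one_sub_mul_cos_sq ((sm 0 ⟨le_rfl, hT⟩).trans (by linarith : η ≤ π))
  have c2 := Real.one_sub_sq_div_two_le_cos (x := a T)
  have c3 : 1 / 8 ≤ 2 / π ^ 2 := by
    rw [div_le_div_iff₀ (by norm_num) (by positivity)]; nlinarith [Real.pi_lt_four]
  rw [mul_zero, Real.exp_zero, mul_one, show -2 * (1 - η ^ 2) * T = -((2 : ℕ) * ((1 - η ^ 2) * T))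
    by push_cast; ring, Real.exp_neg, Real.exp_nat_mul, ← div_eq_mul_inv,
    le_div_iff₀ (by positivity)] at w
  rw [div_pow, mul_pow, sq_abs, sq_abs]
  nlinarith [mul_le_mul_of_nonneg_right (show a 0 ^ 2 / 8 ≤ 1 - Real.cos (a 0) by
    nlinarith [sq_nonneg (a 0)]) (sq_nonneg (Real.exp ((1 - η ^ 2) * T)))]

end

theorem result (k : ℕ) : ∃ (u : ℂ → ℂ) (p : ℂ → ℝ) (Φ : ℝ → ℂ → ℂ) (l : ℝ → ℂ),
    ContDiff ℝ ⊤ u ∧ ContDiff ℝ ⊤ p ∧
    (∀ z, u (z + 2 * π) = u z ∧ u (z + 2 * π * I) = u z ∧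
      p (z + 2 * π) = p z ∧ p (z + 2 * π * I) = p z) ∧
    (∀ z, fderiv ℝ u z (u z) + (fderiv ℝ p z 1 + fderiv ℝ p z I * I) = 0) ∧
    (∀ z, (fderiv ℝ u z 1).re + (fderiv ℝ u z I).im = 0) ∧
    (∀ z, Φ 0 z = z) ∧ (∀ z t, HasDerivAt (Φ · z) (u (Φ t z)) t) ∧
    ContDiff ℝ k l ∧ Function.Injective l ∧ (∀ s, deriv l s ≠ 0) ∧ (∀ s ∈ Icc 0 1, ‖l s‖ ≤ 2) ∧
    eVariationOn l (Icc 0 1) ≠ ⊤ ∧ ∃ c > 0, ∃ γ > 0, ∀ t ≥ 0,
      ENNReal.ofReal (c * Real.exp (γ * t)) ≤ eVariationOn (Φ t ∘ l) (Icc 0 1) := by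
  choose F h0 hF using flow
  have r := fun z : ℂ => reCLM.hasFDerivAt (x := z)
  have i := fun z : ℂ => imCLM.hasFDerivAt (x := z)
  have o := fun x : ℝ => ofRealCLM.hasFDerivAt (x := x)
  have du : ∀ z v, fderiv ℝ u z v = Real.cos z.im * v.im + Real.cos z.re * v.re * I := fun z v => by
    rw [show fderiv ℝ u z = _ from (((o _).comp z (i z).sin).fun_add
      (((o _).comp z (r z).sin).mul_const I)).fderiv]
    simp; ring
  have dp : ∀ z v, fderiv ℝ p z v = -(Real.sin z.re * Real.cos z.im * v.re) -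
      Real.cos z.re * Real.sin z.im * v.im := fun z v => by
    rw [show fderiv ℝ p z = _ from ((r z).cos.fun_mul (i z).cos).fderiv]
    simp; ring
  set q := 2 * (k + 1) with hq
  set η : ℝ := 1 / (2 * (q + 1)) with hη
  have η0 : 0 < η := by positivity
  have η1 : η ≤ 1 / 2 := one_div_le_one_div_of_le two_pos (by linarith [q.cast_nonneg (α := ℝ)])
  set A : ℝ → ℝ := fun s => η / 2 * (s ^ (q + 1) - s ^ (q + 1) * Real.cos (s⁻¹ + 0)) with hA
  have cA : ContDiff ℝ (k + 1 : ℕ) A := contDiff_const.mul ((contDiff_id.pow _).sub (cd _ 0))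
  set l : ℝ → ℂ := fun s => (A s + η * s : ℝ) + (A s - η * s : ℝ) * I with hl
  have cl : ContDiff ℝ (k + 1 : ℕ) l :=
    (ofRealCLM.contDiff.comp (cA.add (contDiff_const.mul contDiff_id))).add
      ((ofRealCLM.contDiff.comp (cA.sub (contDiff_const.mul contDiff_id))).mul contDiff_const)
  have la : ∀ s, ((l s).re + 1 * (l s).im) / 2 = A s := fun s => by simp [hl]
  have lb : ∀ s, ((l s).re + -1 * (l s).im) / 2 = η * s := fun s => by simp [hl]; ring
  have bA : ∀ s, 0 ≤ s → |A s| ≤ η * s ^ (q + 1) := fun s hs => by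
    have := mul_nonneg η0.le (pow_nonneg hs (q + 1))
    rw [abs_le, hA]
    constructor <;> nlinarith [Real.cos_le_one (s⁻¹ + 0), Real.neg_one_le_cos (s⁻¹ + 0)]
  refine ⟨u, p, fun t z => F z t, l, ?_, ?_, fun z => by simp [u, p], fun z => ?_,
    fun z => by simp [du], h0, hF, cl.of_le (by exact_mod_cast k.le_succ), fun s t h => ?_,
    fun s h => ?_, fun s hs => ?_, ?_, η / 2 / (2 * π) ^ (q + 1) / 2 ^ q, by positivity,
    1 / (q + 1) - η ^ 2, ?_, fun T hT => ?_⟩
  · exact (ofRealCLM.contDiff.comp imCLM.contDiff.sin).add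
      ((ofRealCLM.contDiff.comp reCLM.contDiff.sin).mul contDiff_const)
  · exact reCLM.contDiff.cos.mul imCLM.contDiff.cos
  · rw [du, dp, dp]; simp [u, -ofReal_sin, -ofReal_cos]; ring
  · exact mul_left_cancel₀ η0.ne' (by rw [← lb, ← lb, h])
  · have d := (cl.differentiable (by simp) s).hasDerivAt
    have := (((reCLM.hasFDerivAt.comp_hasDerivAt s d).fun_add
      ((imCLM.hasFDerivAt.comp_hasDerivAt s d).const_mul (-1))).div_const 2).unique
        (((hasDerivAt_id' s).const_mul η).congr_of_eventuallyEq (.of_forall lb))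
    simp [h] at this; linarith
  · refine (norm_le_abs_re_add_abs_im _).trans ?_
    have := (bA s hs.1).trans (mul_le_of_le_one_right η0.le (pow_le_one₀ hs.1 hs.2))
    have := mul_le_of_le_one_right η0.le hs.2
    have := mul_nonneg η0.le hs.1
    simp only [hl, add_re, add_im, ofReal_re, ofReal_im, mul_re, mul_im, I_re, I_im]
    cases abs_cases (A s) <;> rw [← sub_nonneg] <;> simp <;>
      cases abs_cases (A s + η * s) <;> cases abs_cases (A s - η * s) <;> linarith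
  · obtain ⟨K, hK⟩ := (cl.contDiffOn (s := Icc 0 1)).exists_lipschitzOnWith (by simp)
      (convex_Icc 0 1) isCompact_Icc
    simpa [BoundedVariationOn] using hK.locallyBoundedVariationOn 0 1 (by simp) (by simp)
  · have : 1 / ((q : ℝ) + 1) = 2 * η := by rw [hη]; field_simp
    nlinarith
  set E := Real.exp (T / (q + 1)) with hE
  have E1 : 1 ≤ E := Real.one_le_exp (by positivity)
  set M := ⌈E⌉₊ with hM
  have M1 : E ≤ M := Nat.le_ceil E
  have M2 : (M : ℝ) ≤ 2 * E := by linarith [Nat.ceil_lt_add_one (zero_le_one.trans E1)]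
  have p3 := Real.pi_gt_three
  set κ := η / (2 * π * M) ^ (q + 1) * Real.exp ((1 - η ^ 2) * T) / 2 with hκ
  set a : ℕ → ℝ := fun n => ((F (l (π * n)⁻¹) T).re + 1 * (F (l (π * n)⁻¹) T).im) / 2 with ha
  have sn : ∀ n : ℕ, M ≤ n → (π * n : ℝ)⁻¹ ∈ Icc (0 : ℝ) 1 := fun n hn =>
    ⟨by positivity, inv_le_one_of_one_le₀ (by nlinarith [(Nat.cast_le (α := ℝ)).2 hn])⟩
  have key : ∀ n : ℕ, M ≤ n → n ≤ 2 * M → (Even n → a n = 0) ∧ (Odd n → κ ≤ |a n|) :=
    fun n h1 h2 => by
      have h1' : (M : ℝ) ≤ n := by exact_mod_cast h1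
      have h2' : (n : ℝ) ≤ 2 * M := by exact_mod_cast h2
      have := grow (hF (l (π * n)⁻¹)) _ _ rfl rfl T η hT (by linarith) (by
        rw [h0, la]
        refine (mul_le_mul_of_nonneg_right (bA _ (sn n h1).1) (Real.exp_pos _).le).trans ?_
        rw [mul_assoc, show T = (q + 1 : ℕ) * (T / (q + 1)) by push_cast; field_simp,
          Real.exp_nat_mul, ← mul_pow]
        exact mul_le_of_le_one_right η0.le (pow_le_one₀ (by positivity)
          (inv_mul_le_one_of_le₀ (by nlinarith) (by positivity)))) (by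
        rw [h0, lb, abs_of_nonneg (mul_nonneg η0.le (sn n h1).1)]
        exact mul_le_of_le_one_right η0.le (sn n h1).2)
      simp only [h0, la, hA, inv_inv, add_zero, mul_comm π, Real.cos_nat_mul_pi] at this
      refine ⟨fun e => abs_nonpos_iff.1 (by simpa [ha, mul_comm π, e.neg_one_pow] using this.1),
        fun e => le_trans ?_ (by simpa only [ha, mul_comm π] using this.2)⟩
      rw [e.neg_one_pow, abs_of_nonneg (by
        have : 0 ≤ ((n : ℝ) * π)⁻¹ ^ (q + 1) := by positivity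
        nlinarith), hκ]
      gcongr
      rw [div_eq_mul_inv, ← inv_pow]
      have : (2 * π * M)⁻¹ ^ (q + 1) ≤ ((n : ℝ) * π)⁻¹ ^ (q + 1) :=
        pow_le_pow_left₀ (by positivity) (inv_anti₀ (by nlinarith) (by nlinarith)) _
      nlinarith
  refine le_trans ?_ (eVariationOn.sum_le_of_monotoneOn_Iic (n := M)
    (u := fun i => (π * (2 * M - i : ℕ))⁻¹) (fun i hi j hj hij => inv_anti₀
      (by have : (M : ℝ) ≤ (2 * M - j : ℕ) := by
            exact_mod_cast (by have : j ≤ M := hj; omega)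
          nlinarith)
      (by gcongr)) fun i hi => sn _ (by omega))
  refine le_trans ?_ (Finset.card_nsmul_le_sum _ _ (ENNReal.ofReal κ) fun i hi => ?_)
  · rw [Finset.card_range, nsmul_eq_mul, ← ENNReal.ofReal_natCast, ← ENNReal.ofReal_mul
      (by positivity)]
    refine ENNReal.ofReal_le_ofReal ?_
    have e : Real.exp ((1 - η ^ 2) * T) = Real.exp ((1 / (q + 1) - η ^ 2) * T) * E ^ q := by
      rw [hE, ← Real.exp_nat_mul, ← Real.exp_add]; congr 1; field_simp; ring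
    have M0 : (0 : ℝ) < M := by linarith
    have : (M : ℝ) * κ = η / 2 / (2 * π) ^ (q + 1) * (E / M) ^ q *
        Real.exp ((1 / (q + 1) - η ^ 2) * T) := by
      rw [hκ, e, mul_pow _ (M : ℝ), pow_succ (M : ℝ), div_pow E]; field_simp
    rw [this, div_eq_mul_inv _ (2 ^ q), ← inv_pow]
    gcongr
    rw [le_div_iff₀ M0]; linarith
  have hi := Finset.mem_range.1 hi
  rw [edist_dist, dist_eq_norm]
  refine ENNReal.ofReal_le_ofReal (le_trans (b := |a (2 * M - (i + 1)) - a (2 * M - i)|) ?_ ?_)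
  · have k1 := key (2 * M - (i + 1)) (by omega) (by omega)
    have k2 := key (2 * M - i) (by omega) (by omega)
    rcases Nat.even_or_odd (2 * M - (i + 1)) with e | e
    · rw [k1.1 e, zero_sub, abs_neg]
      exact k2.2 ((by omega : 2 * M - (i + 1) + 1 = 2 * M - i) ▸ e.add_one)
    · rw [k2.1 ((by omega : 2 * M - (i + 1) + 1 = 2 * M - i) ▸ e.add_one), sub_zero]
      exact k1.2 e
  · simp only [ha, Function.comp]
    generalize F (l (π * (2 * M - (i + 1) : ℕ))⁻¹) T = z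
    generalize F (l (π * (2 * M - i : ℕ))⁻¹) T = w
    have c := abs_le.1 (abs_re_le_norm (z - w))
    have d := abs_le.1 (abs_im_le_norm (z - w))
    rw [sub_re] at c
    rw [sub_im] at d
    rw [abs_le]; constructor <;> linarith

end Pool.Agent.Results.MP_d5a48f_an.Stretch
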